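import Pool.Agent.W788.NW.Stm

set_option autoImplicit false

namespace Pool.Agent.W788.NW.DuhX

open Finset Filter Topology Pool.Agent.W788.NV Pool.Agent.W788.NW

section
attribute [local instance] Matrix.linftyOpNormedRing Matrix.linftyOpNormedAlgebra

variable {S ι : Type} [Fintype S] [DecidableEq S] [Fintype ι]

theorem cont_gen (R : ℝ → ι → ℝ) (hR : ∀ e, Continuous (fun s => R s e)) (m : ι → S → S) :
    Continuous (fun s => mgen (R s) m) := by
  refine continuous_matrix ?_
  intro i j
  unfold mgen
  exact continuous_finset_sum _ fun e _ => (hR e).mul continuous_const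

theorem cont_joint (R : ℝ → ι → ℝ) (hR : ∀ e, Continuous (fun s => R s e)) (m : ι → S → S)
    (F : S → ℝ) (x : S) : Continuous (fun p : ℝ × ℝ => sg (R p.1) m p.2 F x) := by
  have h1 : Continuous (fun p : ℝ × ℝ => p.2 • mgen (R p.1) m) :=
    continuous_snd.smul ((cont_gen R hR m).comp continuous_fst)
  have h2 : Continuous (fun p : ℝ × ℝ => NormedSpace.exp (p.2 • mgen (R p.1) m)) :=
    NormedSpace.exp_continuous.comp h1
  unfold sg Matrix.mulVec dotProduct
  refine continuous_finset_sum _ fun y _ => ?_
  exact ((continuous_apply_apply x y).comp h2).mul continuous_const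

end

theorem duh_ (hM : MK) : S_DUH := by
  intro S ι _ _ _ r ρ m F x t s
  classical
  set R : ℝ → ι → ℝ := fun s e => r e + s * ρ e with hRdef
  have hRc : ∀ e, Continuous (fun s => R s e) := by
    intro e
    simp only [hRdef]
    fun_prop
  set I : S → S → ℝ := fun y z => if z = y then 1 else 0 with hI
  have hrep : ∀ (r' : ι → ℝ) (H : S → ℝ) (u : ℝ),
      sg r' m u H x = ∑ y, H y * sg r' m u (I y) x := by
    intro r' H u
    have e : H = fun z => ∑ y, H y * I y z := by
      funext z
      simp [hI]
    conv_lhs => rw [e]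
    exact hM.lin S ι S r' m H I x u
  have hgf : ∀ (r' : ι → ℝ) (c : S → ℝ) (z : S), ∑ y, c y * gf r' m (I y) z = gf r' m c z := by
    intro r' c z
    unfold gf
    simp only [Finset.mul_sum]
    rw [Finset.sum_comm]
    refine Finset.sum_congr rfl fun e _ => ?_
    have h1 : ∀ y, c y * (r' e * (I y (m e z) - I y z)) =
        r' e * (c y * I y (m e z)) - r' e * (c y * I y z) := fun y => by ring
    simp only [h1, Finset.sum_sub_distrib, ← Finset.mul_sum]
    have h2 : ∀ z', ∑ y, c y * I y z' = c z' := by
      intro z'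
      simp [hI]
    rw [h2, h2]
    ring
  have hgf2 : ∀ (r' : ι → ℝ) (c : S → ℝ) (u : ℝ),
      ∑ y, c y * sg r' m u (gf r' m (I y)) x = sg r' m u (gf r' m c) x := by
    intro r' c u
    rw [← hM.lin S ι S r' m c (fun y => gf r' m (I y)) x u]
    congr 1
    funext z
    exact hgf r' c z
  -- the derivative
  have hder : ∀ s' τ : ℝ, HasDerivAt (fun τ => sg (R s) m τ (sg (R s') m (t - τ) F) x)
      ((s - s') * sg (R s) m τ (gf ρ m (sg (R s') m (t - τ) F)) x) τ := by
    intro s' τ
    have hB : ∀ y, HasDerivAt (fun τ => sg (R s') m (t - τ) F y)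
        (-(gf (R s') m (sg (R s') m (t - τ) F) y)) τ := by
      intro y
      have h1 := hM.deriv S ι (R s') m F y (t - τ)
      have h2 : HasDerivAt (fun τ : ℝ => t - τ) (-1) τ := by
        simpa using (hasDerivAt_id τ).const_sub t
      have h3 := h1.comp τ h2
      rw [hM.comm] at h3
      have h4 : gf (R s') m (sg (R s') m (t - τ) F) y * (-1) =
          -(gf (R s') m (sg (R s') m (t - τ) F) y) := by ring
      rw [h4] at h3
      exact h3
    have hp : ∀ y, HasDerivAt (fun τ => sg (R s) m τ (I y) x)
        (sg (R s) m τ (gf (R s) m (I y)) x) τ :=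
      fun y => hM.deriv S ι (R s) m (I y) x τ
    have hfun : (fun τ => sg (R s) m τ (sg (R s') m (t - τ) F) x) =
        fun τ => ∑ y, sg (R s') m (t - τ) F y * sg (R s) m τ (I y) x := by
      funext u
      exact hrep _ _ u
    rw [hfun]
    have hd := HasDerivAt.fun_sum (u := Finset.univ)
      (fun y _ => (hB y).mul (hp y))
    refine hd.congr_deriv ?_
    rw [Finset.sum_add_distrib]
    have e1 : ∑ y, sg (R s') m (t - τ) F y * sg (R s) m τ (gf (R s) m (I y)) x =
        sg (R s) m τ (gf (R s) m (sg (R s') m (t - τ) F)) x := hgf2 _ _ _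
    have e2 : ∑ y, -(gf (R s') m (sg (R s') m (t - τ) F) y) * sg (R s) m τ (I y) x =
        -sg (R s) m τ (gf (R s') m (sg (R s') m (t - τ) F)) x := by
      rw [hrep (R s) (gf (R s') m (sg (R s') m (t - τ) F)) τ, ← Finset.sum_neg_distrib]
      exact Finset.sum_congr rfl fun y _ => by ring
    rw [e1, e2]
    rw [hrep (R s) (gf (R s) m (sg (R s') m (t - τ) F)) τ,
      hrep (R s) (gf (R s') m (sg (R s') m (t - τ) F)) τ,
      hrep (R s) (gf ρ m (sg (R s') m (t - τ) F)) τ, Finset.mul_sum, ← Finset.sum_neg_distrib,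
      ← Finset.sum_add_distrib]
    refine Finset.sum_congr rfl fun y _ => ?_
    have e3 : gf (R s) m (sg (R s') m (t - τ) F) y =
        gf (R s') m (sg (R s') m (t - τ) F) y + (s - s') * gf ρ m (sg (R s') m (t - τ) F) y := by
      unfold gf
      rw [Finset.mul_sum, ← Finset.sum_add_distrib]
      refine Finset.sum_congr rfl fun e _ => ?_
      simp only [hRdef]
      ring
    rw [e3]
    ring
  -- joint continuity
  have hcont : Continuous (fun p : ℝ × ℝ =>
      sg (R s) m p.2 (gf ρ m (sg (R p.1) m (t - p.2) F)) x) := by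
    have e : (fun p : ℝ × ℝ => sg (R s) m p.2 (gf ρ m (sg (R p.1) m (t - p.2) F)) x) =
        fun p : ℝ × ℝ => ∑ y, gf ρ m (sg (R p.1) m (t - p.2) F) y * sg (R s) m p.2 (I y) x := by
      funext p
      exact hrep _ _ _
    rw [e]
    refine continuous_finset_sum _ fun y _ => ?_
    have hc1 : ∀ z, Continuous (fun p : ℝ × ℝ => sg (R p.1) m (t - p.2) F z) := by
      intro z
      have := (cont_joint R hRc m F z).comp
        (continuous_fst.prodMk (continuous_const.sub continuous_snd) :
          Continuous (fun p : ℝ × ℝ => (p.1, t - p.2)))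
      exact this
    have hc2 : Continuous (fun p : ℝ × ℝ => sg (R s) m p.2 (I y) x) := by
      have := (cont_joint (fun _ => R s) (fun e => continuous_const) m (I y) x)
      exact this
    refine Continuous.mul ?_ hc2
    unfold gf
    exact continuous_finset_sum _ fun e _ =>
      continuous_const.mul ((hc1 (m e y)).sub (hc1 y))
  have hcs : ∀ s' : ℝ, Continuous (fun τ : ℝ =>
      sg (R s) m τ (gf ρ m (sg (R s') m (t - τ) F)) x) := by
    intro s'
    exact hcont.comp (continuous_const.prodMk continuous_id : Continuous (fun τ : ℝ => (s', τ)))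
  have hint : ∀ s' : ℝ, sg (R s) m t F x - sg (R s') m t F x =
      (s - s') * ∫ τ in (0 : ℝ)..t, sg (R s) m τ (gf ρ m (sg (R s') m (t - τ) F)) x := by
    intro s'
    have h1 := intervalIntegral.integral_eq_sub_of_hasDerivAt (a := 0) (b := t)
      (fun τ _ => hder s' τ) ((continuous_const.mul (hcs s')).intervalIntegrable _ _)
    rw [intervalIntegral.integral_const_mul] at h1
    rw [h1]
    simp only [sub_self, sub_zero, hM.zero]
  have hIc : Continuous (fun s' : ℝ => ∫ τ in (0 : ℝ)..t,
      sg (R s) m τ (gf ρ m (sg (R s') m (t - τ) F)) x) :=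
    intervalIntegral.continuous_parametric_intervalIntegral_of_continuous' hcont 0 t
  rw [hasDerivAt_iff_tendsto_slope]
  have hlim := (hIc.tendsto s).mono_left (nhdsWithin_le_nhds (s := {s}ᶜ))
  refine hlim.congr' ?_
  filter_upwards [self_mem_nhdsWithin] with s' hs'
  have hne : s' - s ≠ 0 := sub_ne_zero.mpr hs'
  have h2 := hint s'
  rw [slope_def_field]
  rw [eq_div_iff hne]
  have e4 : sg (fun e => r e + s' * ρ e) m t F x - sg (fun e => r e + s * ρ e) m t F x =
      -(sg (R s) m t F x - sg (R s') m t F x) := by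
    simp only [hRdef]
    ring
  rw [e4, h2]
  ring

end Pool.Agent.W788.NW.DuhX
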