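import Pool.Agent.W788.NW.Top
import Pool.Agent.W891.NW.Leib
import Pool.Agent.W788.NW.DuhX
import Pool.Agent.W723.NW.INV
import Pool.Agent.W52.NW.EVG
import Pool.Agent.W366.NW.Dr
import Pool.Agent.W880.NW.Pos
import Pool.Agent.W155.NW.Kil
import Pool.Agent.W67.NW.FEA
import Pool.Agent.W880.NW.Nr
import Pool.Agent.W274.NW.Fe
import Pool.Agent.W612.NW.SPI
import Pool.Agent.W597.NW.Cnt
import Pool.Agent.W576.NW.RFP
import Pool.Agent.W616.NW.Psa
import Pool.Agent.W52.NW.PS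
import Pool.Agent.W856.NW.Nua
import Pool.Agent.W935.NW.NUB
import Pool.Agent.W446.NW.NU
import Pool.Agent.W82.NW.GR1
import Pool.Agent.W738.NW.Grd
import Pool.Agent.W382.NW.ENE
import Pool.Agent.W73.NW.WO1
import Pool.Agent.W701.NW.Wod
import Pool.Agent.W899.NW.Win2
import Pool.Agent.W589.NW.Fin3
import Pool.Agent.W551.NW.Sub

/-! # Assembly of project NW -/

namespace Pool.Agent.W788.NW

open Finset Filter Topology Pool.Agent.W788.NV

theorem p_leib : S_LEIB := Pool.Agent.W891.NW.Leib.leib_ p_mk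
theorem p_duh : S_DUH := DuhX.duh_ p_mk
theorem p_inv : S_INV := Pool.Agent.W723.NW.inv_ p_mk
theorem p_evg : S_EVG := Pool.Agent.W52.NW.evg_ p_mk p_in p_lr
theorem p_dr : S_DR := Pool.Agent.W366.NW.Dr.dr_
theorem p_clo : S_CLO := Pool.Agent.W366.NW.Dr.clo_
theorem p_pos : S_POS := Pool.Agent.W880.NW.pos_
theorem p_kil : S_KIL := Pool.Agent.W155.NW.Kil.kil_ p_mk p_leib p_evg p_dr p_pos p_tot
theorem p_fea : S_FEA := Pool.Agent.W67.NW.fea_ p_mk p_duh p_kil p_evg p_dr p_pos p_tot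
theorem p_nr : S_NR := Pool.Agent.W880.NW.NR.nr_ p_mk
theorem p_fe : S_FE := Pool.Agent.W274.NW.fe_ p_mk p_fea p_nr p_evg p_law p_gen p_tot
theorem p_spi : S_SPI := Pool.Agent.W612.NW.spi_ p_mk p_tot
theorem p_cnt : S_CNT := Pool.Agent.W597.NWC.cnt_ p_mk p_in p_tot
theorem p_rfp : S_RFP := Pool.Agent.W576.NW.rfp_ p_mk p_in p_tot
theorem p_psa : S_PSA := Pool.Agent.W616.NW.psa_ p_dr p_pos p_tot
theorem p_ps : S_PS := Pool.Agent.W52.NW.ps_ p_mk p_leib p_inv p_clo p_rfp p_psa p_tot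
theorem p_nua : S_NUA := Pool.Agent.W856.NW.nua_ p_dr p_pos p_tot
theorem p_nub : S_NUB := Pool.Agent.W935.NW.NUB.nub_ p_mk p_ps p_inv p_clo p_dr p_tot p_pos
theorem p_nu : S_NU :=
  Pool.Agent.W446.NW.NU.nu_ p_mk p_nua p_nub p_fe p_law p_inv p_clo p_dr p_tot p_gen
theorem p_gr1 : S_GR1 := Pool.Agent.W82.NW.gr1_ p_mk p_spi p_cnt p_tot
theorem p_grd : S_GRD := Pool.Agent.W738.NW.grd_ p_mk p_gr1 p_nu p_law p_tot
theorem p_ene : S_ENE := Pool.Agent.W382.NW.ene_ p_tot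
theorem p_wo1 : S_WO1 := Pool.Agent.W73.NW.wo1_ p_mk p_var p_grd p_ene p_law p_tot
theorem p_wod : S_WOD := Pool.Agent.W701.NW.Wod.wod_ p_mk p_var p_wo1 p_main p_law p_tot
theorem p_win2 : S_WIN2 := Pool.Agent.W899.NW.Win2.win2_ p_mk p_wod p_chb p_law p_osc p_tot
theorem p_fin3 : S_FIN3 := Pool.Agent.W589.NW.fin3_ p_win2 p_upp p_law p_fin2
theorem p_sub : S_SUB := Pool.Agent.W551.NW.sub_

end Pool.Agent.W788.NW
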