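import Pool.Agent.W788.NV.Stm

/-!
# Project NW (problem MP_2bac73_pr: window of order one): the statements of the parts
-/

namespace Pool.Agent.W788.NW

open Finset Pool.Agent.W788.NV

/-! ## definitions -/

/-- exponential weights on the pairs of vertices, growing at rate `1 + η` along the edges, with
inverses summable with sum at most `S` -/
structure WT {V : Type} [Fintype V] (G : SimpleGraph V) (η S : ℝ) (ω : V → V → ℝ) : Prop where
  eta : 0 ≤ η
  self : ∀ j, ω j j = 1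
  one : ∀ j y, 1 ≤ ω j y
  sym : ∀ j y, ω j y = ω y j
  adj : ∀ j y y', G.Adj y y' → ω j y' ≤ (1 + η) * ω j y
  sum : ∀ j, ∑ y, (ω j y)⁻¹ ≤ S

/-- mass of the point `z` under the image by `Φ` of the measure `k` -/
noncomputable def hit {V : Type} [Fintype V] [DecidableEq V] {q : ℕ} (k : (V → Fin q) → ℝ)
    (z : V → Fin q) (Φ : Mp V q) : ℝ := ∑ x, if Φ x = z then k x else 0

/-- rates of the moves, with the reads of the site `v0` slowed down by the factor `s` -/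
noncomputable def rv {V : Type} [Fintype V] [DecidableEq V] (G : SimpleGraph V) (q : ℕ) (θ : ℝ)
    (v0 : V) (s : ℝ) : (V × Fin q) ⊕ (V × V) → ℝ
  | .inl p => mrate G q θ (Sum.inl p)
  | .inr p => if p.2 = v0 then s * mrate G q θ (Sum.inr p) else mrate G q θ (Sum.inr p)

/-- moves with the reads of the site `v` replaced by the colour `a` -/
def actv {V : Type} [DecidableEq V] {q : ℕ} (v : V) (a : Fin q) :
    (V × Fin q) ⊕ (V × V) → (V → Fin q) → (V → Fin q)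
  | .inl p, x => Function.update x p.1 p.2
  | .inr p, x => Function.update x p.1 (if p.2 = v then a else x p.2)

/-- moves of the spine chain on the pairs (site, map) -/
def sm {V : Type} [DecidableEq V] {q : ℕ} (a b : Fin q) :
    ((V × Fin q) ⊕ (V × V)) ⊕ (V × V) → V × Mp V q → V × Mp V q
  | .inl e, p => if site e = p.1 then p else (p.1, fun x => p.2 (actv p.1 a e x))
  | .inr w, p => if w.1 = p.1 then (w.2, fun x => p.2 (Function.update x w.2 b)) else p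

/-- rates of the moves of the spine chain -/
noncomputable def srate {V : Type} [Fintype V] (G : SimpleGraph V) (q : ℕ) (θ : ℝ) :
    ((V × Fin q) ⊕ (V × V)) ⊕ (V × V) → ℝ
  | .inl e => mrate G q θ e
  | .inr w => mrate G q θ (Sum.inr w)

/-- expectation at time `t` for the spine chain started from `p` -/
noncomputable def sx {V : Type} [Fintype V] [DecidableEq V] (G : SimpleGraph V) (q : ℕ) (θ : ℝ)
    (a b : Fin q) (t : ℝ) (F : V × Mp V q → ℝ) (p : V × Mp V q) : ℝ :=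
  sg (srate G q θ) (sm (V := V) a b) t F p

/-- starting point of the spine chain -/
def st {V : Type} [DecidableEq V] {q : ℕ} (w : V) (a : Fin q) : V × Mp V q :=
  (w, fun x => Function.update x w a)

/-- weighted number of the input sites on which the output site `j` depends -/
noncomputable def wa {V : Type} [Fintype V] [DecidableEq V] {q : ℕ} (ω : V → V → ℝ) (j : V)
    (Ψ : Mp V q) : ℝ := ∑ y, if j ∈ dep Ψ y then ω j y else 0

/-- number of the neighbours of the spine which matter -/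
noncomputable def nb {V : Type} [Fintype V] [DecidableEq V] {q : ℕ} (G : SimpleGraph V)
    (p : V × Mp V q) : ℝ := by
  classical
  exact ((univ.filter (fun y => G.Adj p.1 y ∧ dep p.2 y ≠ ∅)).card : ℝ)

/-- the constant of the finite energy property -/
noncomputable def cE (q : ℕ) (θ : ℝ) (Δ : ℕ) (η S : ℝ) : ℝ :=
  Real.exp (Δ * (2 * q / θ * (1 + η) * S) + Δ) * (q / (θ * (1 - Real.exp (-1))))

/-- the constant of the spine comparison -/
noncomputable def cN (q : ℕ) (θ : ℝ) (Δ : ℕ) (η S : ℝ) : ℝ :=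
  Real.exp (4 * q ^ 2 * cE q θ Δ η S * Δ * S / θ)

/-- the constant of the variance decay -/
noncomputable def cV (q : ℕ) (θ : ℝ) (Δ : ℕ) (η S : ℝ) : ℝ :=
  2 * q ^ 2 * Δ * cN q θ Δ η S / θ ^ 2

/-- standing assumptions -/
structure HY {V : Type} [Fintype V] (G : SimpleGraph V) (q : ℕ) (θ : ℝ) (Δ : ℕ) (η S : ℝ)
    (ω : V → V → ℝ) : Prop where
  q2 : 2 ≤ q
  t0 : 0 < θ
  t1 : θ < 1
  d1 : ∀ v, 1 ≤ dg G v
  dD : ∀ v, dg G v ≤ Δ
  wt : WT G η S ω
  et : 2 * η * (1 - θ) * q ≤ θ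
  D1 : 1 ≤ Δ
  S1 : 1 ≤ S

/-! ## general facts on semigroups -/

/-- LEIB: derivative of a product along the semigroup -/
def S_LEIB : Prop := ∀ (S ι : Type) [Fintype S] [DecidableEq S] [Fintype ι] (r : ι → ℝ)
    (m : ι → S → S) (F b : S → ℝ) (x : S) (h τ : ℝ),
    HasDerivAt (fun τ => sg r m τ (fun y => F y * sg r m (h - τ) b y) x)
      (sg r m τ (fun y => ∑ e, r e * ((F (m e y) - F y) * sg r m (h - τ) b (m e y))) x) τ

/-- DUH: derivative in the rates -/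
def S_DUH : Prop := ∀ (S ι : Type) [Fintype S] [DecidableEq S] [Fintype ι] (r ρ : ι → ℝ)
    (m : ι → S → S) (F : S → ℝ) (x : S) (t s : ℝ),
    HasDerivAt (fun s => sg (fun e => r e + s * ρ e) m t F x)
      (∫ τ in (0 : ℝ)..t, sg (fun e => r e + s * ρ e) m τ
        (gf ρ m (sg (fun e => r e + s * ρ e) m (t - τ) F)) x) s

/-- INV: the semigroup on a closed set of states -/
def S_INV : Prop := ∀ (S ι : Type) [Fintype S] [DecidableEq S] [Fintype ι] (r : ι → ℝ)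
    (m : ι → S → S) (I : S → Prop), (∀ e x, I x → r e ≠ 0 → I (m e x)) →
    ∀ (F H : S → ℝ) (x : S) (t c : ℝ), I x →
    ((∀ y, I y → F y = H y) → sg r m t F x = sg r m t H x) ∧
    ((∀ e, 0 ≤ r e) → 0 ≤ t → (∀ y, I y → F y ≤ H y) → sg r m t F x ≤ sg r m t H x) ∧
    ((∀ e, 0 ≤ r e) → 0 ≤ t → (∀ y, I y → gf r m F y ≤ c * F y) →
      sg r m t F x ≤ Real.exp (c * t) * F x)

/-- EVG: evaluation of the right random walk on maps, general rates -/
def S_EVG : Prop := ∀ (V : Type) [Fintype V] [DecidableEq V] (q : ℕ)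
    (r : (V × Fin q) ⊕ (V × V) → ℝ) (t : ℝ),
    (∀ (h : (V → Fin q) → ℝ) (x : V → Fin q),
      sg r (mR (V := V) (q := q)) t (fun Φ => h (Φ x)) id = sg r (act (V := V) (q := q)) t h x) ∧
    (∀ (F : Mp V q → ℝ) (Φ : Mp V q), sg r (mR (V := V) (q := q)) t F Φ =
      sg r (mR (V := V) (q := q)) t (fun Θ => F (fun x => Φ (Θ x))) id) ∧
    (∀ (k : (V → Fin q) → ℝ), (∀ e, 0 ≤ r e) → 0 ≤ t → (∀ x, 0 ≤ k x) →
      ∃ k' : (V → Fin q) → ℝ, (∀ x, 0 ≤ k' x) ∧ ∀ (z : V → Fin q) (Φ : Mp V q),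
        sg r (mR (V := V) (q := q)) t (hit k z) Φ = hit k' z Φ)

/-! ## combinatorial facts -/

/-- DR: dependence sets and right multiplications -/
def S_DR : Prop := ∀ (V : Type) [Fintype V] [DecidableEq V] (q : ℕ) (Ψ : Mp V q) (v : V),
    (dep Ψ v = ∅ → ∀ x c, Ψ (Function.update x v c) = Ψ x) ∧
    (∀ c : Fin q, dep (fun x => Ψ (Function.update x v c)) v = ∅ ∧
      ∀ y, dep (fun x => Ψ (Function.update x v c)) y ⊆ dep Ψ y) ∧
    (∀ w, w ≠ v → dep (fun x => Ψ (Function.update x v (x w))) v = ∅ ∧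
      dep (fun x => Ψ (Function.update x v (x w))) w ⊆ dep Ψ w ∪ dep Ψ v ∧
      ∀ y, y ≠ w → dep (fun x => Ψ (Function.update x v (x w))) y ⊆ dep Ψ y) ∧
    (∀ (c : Fin q) (y : V), dep (fun x : V → Fin q => Function.update x v c) y ⊆ {y} ∧
      (y = v → dep (fun x : V → Fin q => Function.update x v c) y = ∅)) ∧
    (∀ (a : Fin q) (e : (V × Fin q) ⊕ (V × V)), dep Ψ v = ∅ → site e ≠ v →
      dep (fun x => Ψ (actv v a e x)) v = ∅)

/-- CLO: the spine chain forgets the spine site -/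
def S_CLO : Prop := ∀ (V : Type) [Fintype V] [DecidableEq V] (q : ℕ) (a b : Fin q)
    (e : ((V × Fin q) ⊕ (V × V)) ⊕ (V × V)) (p : V × Mp V q), dep p.2 p.1 = ∅ →
    dep (sm a b e p).2 (sm a b e p).1 = ∅

/-- POS: positivity facts -/
def S_POS : Prop := ∀ (V : Type) [Fintype V] [DecidableEq V] (q : ℕ) (k : (V → Fin q) → ℝ)
    (z : V → Fin q) (Φ : Mp V q) (v : V) (g : (V → Fin q) → Fin q), (∀ x, 0 ≤ k x) →
    0 ≤ hit k z Φ ∧
    hit k z (fun x => Φ (Function.update x v (g x))) ≤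
      ∑ c, hit k z (fun x => Φ (Function.update x v c)) ∧
    hit k z Φ ≤ ∑ c, hit k z (fun x => Φ (Function.update x v c)) ∧
    (∀ (E : ℝ) (c : Fin q), 0 ≤ E → (∀ x c', k (Function.update x v c') ≤ E * k x) →
      hit k z (fun x => Φ (Function.update x v c)) ≤ q * E * hit k z Φ)

/-! ## the finite energy property -/

/-- KIL: posterior bound for the noise at the sites which matter -/
def S_KIL : Prop := ∀ (V : Type) [Fintype V] [DecidableEq V] (G : SimpleGraph V) (q : ℕ) (θ : ℝ)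
    (Δ : ℕ) (η S : ℝ) (ω : V → V → ℝ), HY G q θ Δ η S ω →
    ∀ r : (V × Fin q) ⊕ (V × V) → ℝ, (∀ p, r (Sum.inl p) = θ / q) →
    (∀ p, 0 ≤ r (Sum.inr p) ∧ r (Sum.inr p) ≤ mrate G q θ (Sum.inr p)) →
    ∀ (k : (V → Fin q) → ℝ) (z : V → Fin q) (v0 v : V), (∀ x, 0 ≤ k x) → G.Adj v0 v →
    ∫ τ in (0 : ℝ)..1, sg r (mR (V := V) (q := q)) τ
      (fun Φ => if dep Φ v = ∅ then 0 else
        ∑ c : Fin q, sg r (mR (V := V) (q := q)) (1 - τ) (hit k z) (mR (Sum.inl (v, c)) Φ)) id ≤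
      2 * q / θ * (1 + η) * S * sg r (mR (V := V) (q := q)) 1 (hit k z) id

/-- FEA: comparison of the dynamics with the one which never reads `v0` -/
def S_FEA : Prop := ∀ (V : Type) [Fintype V] [DecidableEq V] (G : SimpleGraph V) (q : ℕ) (θ : ℝ)
    (Δ : ℕ) (η S : ℝ) (ω : V → V → ℝ), HY G q θ Δ η S ω →
    ∀ (k : (V → Fin q) → ℝ) (z : V → Fin q) (v0 : V), (∀ x, 0 ≤ k x) →
    sg (mrate G q θ) (mR (V := V) (q := q)) 1 (hit k z) id ≤
      Real.exp (Δ * (2 * q / θ * (1 + η) * S)) *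
        sg (rv G q θ v0 0) (mR (V := V) (q := q)) 1 (hit k z) id ∧
    sg (rv G q θ v0 0) (mR (V := V) (q := q)) 1 (hit k z) id ≤
      Real.exp Δ * sg (mrate G q θ) (mR (V := V) (q := q)) 1 (hit k z) id

/-- NR: a site which is never read is resampled -/
def S_NR : Prop := ∀ (V : Type) [Fintype V] [DecidableEq V] (q : ℕ)
    (r : (V × Fin q) ⊕ (V × V) → ℝ) (v0 : V) (lam : ℝ), (∀ e, 0 ≤ r e) →
    (∀ c, r (Sum.inl (v0, c)) = lam) → (∀ v, r (Sum.inr (v, v0)) = 0) →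
    (∑ e, if site e = v0 then r e else 0) ≤ 1 →
    ∀ (f : (V → Fin q) → ℝ) (t : ℝ) (x : V → Fin q), (∀ y, 0 ≤ f y) → 0 ≤ t →
    lam * (1 - Real.exp (-t)) *
      sg r (act (V := V) (q := q)) t (fun y => ∑ c, f (Function.update y v0 c)) x ≤
      sg r (act (V := V) (q := q)) t f x

/-- FE: the law at a time at least one has the finite energy property -/
def S_FE : Prop := ∀ (V : Type) [Fintype V] [DecidableEq V] (G : SimpleGraph V) (q : ℕ) (θ : ℝ)
    (Δ : ℕ) (η S : ℝ) (ω : V → V → ℝ), HY G q θ Δ η S ω →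
    ∀ (x0 x : V → Fin q) (v : V) (c : Fin q) (t : ℝ), 1 ≤ t →
    law G q θ x0 t (Function.update x v c) ≤ cE q θ Δ η S * law G q θ x0 t x

/-! ## the spine chain -/

/-- SPI: the spine identity -/
def S_SPI : Prop := ∀ (V : Type) [Fintype V] [DecidableEq V] (G : SimpleGraph V) (q : ℕ) (θ : ℝ),
    1 ≤ q → 0 ≤ θ → θ ≤ 1 → (∀ v, 1 ≤ dg G v) →
    ∀ (a b : Fin q) (h : (V → Fin q) → ℝ) (x : V → Fin q) (v : V) (t : ℝ),
    pt G q θ t h (Function.update x v a) - pt G q θ t h (Function.update x v b) =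
      Real.exp (-θ * t) * ∑ w, sx G q θ a b t (fun p => if p.1 = v then
        h (Function.update (p.2 x) w a) - h (Function.update (p.2 x) w b) else 0) (st w a)

/-- CNT: the spine sites are at most `Δ` on average -/
def S_CNT : Prop := ∀ (V : Type) [Fintype V] [DecidableEq V] (G : SimpleGraph V) (q : ℕ) (θ : ℝ)
    (Δ : ℕ), 1 ≤ q → 0 ≤ θ → θ ≤ 1 → (∀ v, 1 ≤ dg G v) → (∀ v, dg G v ≤ Δ) →
    ∀ (a b : Fin q) (v : V) (t : ℝ), 0 ≤ t →
    ∑ w, sx G q θ a b t (fun p => if p.1 = v then 1 else 0) (st w a) ≤ Δ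

/-- RFP: shape of the terminal functionals -/
def S_RFP : Prop := ∀ (V : Type) [Fintype V] [DecidableEq V] (G : SimpleGraph V) (q : ℕ) (θ : ℝ),
    1 ≤ q → 0 ≤ θ → θ ≤ 1 → (∀ v, 1 ≤ dg G v) →
    ∀ (a b : Fin q) (k : V → (V → Fin q) → ℝ) (z : V → Fin q) (t : ℝ), 0 ≤ t →
    (∀ v x, 0 ≤ k v x) → ∃ k' : V → (V → Fin q) → ℝ, (∀ v x, 0 ≤ k' v x) ∧
      ∀ p : V × Mp V q, sx G q θ a b t (fun p => hit (k p.1) z p.2) p = hit (k' p.1) z p.2

/-- PSA: drift of the weighted dependences -/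
def S_PSA : Prop := ∀ (V : Type) [Fintype V] [DecidableEq V] (G : SimpleGraph V) (q : ℕ) (θ : ℝ)
    (Δ : ℕ) (η S : ℝ) (ω : V → V → ℝ), HY G q θ Δ η S ω →
    ∀ (a b : Fin q) (k : V → (V → Fin q) → ℝ) (z : V → Fin q) (j : V) (p : V × Mp V q),
    (∀ v x, 0 ≤ k v x) → dep p.2 p.1 = ∅ →
    ∑ e, srate G q θ e * ((wa ω j (sm a b e p).2 - wa ω j p.2) *
      hit (k (sm a b e p).1) z (sm a b e p).2) ≤
      -(θ / (2 * q)) * (wa ω j p.2 * hit (k p.1) z p.2)

/-- PS: decay of the weighted dependences, with a terminal functional -/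
def S_PS : Prop := ∀ (V : Type) [Fintype V] [DecidableEq V] (G : SimpleGraph V) (q : ℕ) (θ : ℝ)
    (Δ : ℕ) (η S : ℝ) (ω : V → V → ℝ), HY G q θ Δ η S ω →
    ∀ (a b : Fin q) (k : V → (V → Fin q) → ℝ) (z : V → Fin q) (j : V) (p : V × Mp V q) (u : ℝ),
    (∀ v x, 0 ≤ k v x) → dep p.2 p.1 = ∅ → 0 ≤ u →
    sx G q θ a b u (fun p => wa ω j p.2 * hit (k p.1) z p.2) p ≤
      Real.exp (-(θ / (2 * q)) * u) *
        (wa ω j p.2 * sx G q θ a b u (fun p => hit (k p.1) z p.2) p)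

/-- NUA: comparison of the spine generator with the plain one -/
def S_NUA : Prop := ∀ (V : Type) [Fintype V] [DecidableEq V] (G : SimpleGraph V) (q : ℕ) (θ : ℝ),
    1 ≤ q → 0 ≤ θ → θ ≤ 1 → (∀ v, 1 ≤ dg G v) →
    ∀ (a b : Fin q) (ν : (V → Fin q) → ℝ) (z : V → Fin q) (E : ℝ) (p : V × Mp V q),
    (∀ x, 0 ≤ ν x) → 0 ≤ E → (∀ x v c, ν (Function.update x v c) ≤ E * ν x) →
    dep p.2 p.1 = ∅ →
    gf (srate G q θ) (sm a b) (fun p => hit ν z p.2) p -
      gf (mrate G q θ) (mR (V := V) (q := q)) (hit ν z) p.2 ≤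
      2 * q * E * (nb G p * hit ν z p.2)

/-- NUB: the spine has few neighbours which matter -/
def S_NUB : Prop := ∀ (V : Type) [Fintype V] [DecidableEq V] (G : SimpleGraph V) (q : ℕ) (θ : ℝ)
    (Δ : ℕ) (η S : ℝ) (ω : V → V → ℝ), HY G q θ Δ η S ω →
    ∀ (a b : Fin q) (z : V → Fin q) (w : V) (u : ℝ) (ν : (V → Fin q) → ℝ),
    (∀ x, 0 ≤ ν x) → 0 ≤ u →
    sx G q θ a b u (fun p => nb G p * hit ν z p.2) (st w a) ≤
      Δ * S * Real.exp (-(θ / (2 * q)) * u) *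
        sx G q θ a b u (fun p => hit ν z p.2) (st w a)

/-- NU: the spine chain is dominated by the plain one -/
def S_NU : Prop := ∀ (V : Type) [Fintype V] [DecidableEq V] (G : SimpleGraph V) (q : ℕ) (θ : ℝ)
    (Δ : ℕ) (η S : ℝ) (ω : V → V → ℝ), HY G q θ Δ η S ω →
    ∀ (a b : Fin q) (x0 z : V → Fin q) (w : V) (T u : ℝ), 0 ≤ u → 1 ≤ T - u →
    sx G q θ a b u (fun p => hit (law G q θ x0 (T - u)) z p.2) (st w a) ≤
      cN q θ Δ η S * (if z w = a then ∑ c, law G q θ x0 T (Function.update z w c) else 0)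

/-- GR1: pointwise form of the gradient bound -/
def S_GR1 : Prop := ∀ (V : Type) [Fintype V] [DecidableEq V] (G : SimpleGraph V) (q : ℕ) (θ : ℝ)
    (Δ : ℕ), 1 ≤ q → 0 ≤ θ → θ ≤ 1 → (∀ v, 1 ≤ dg G v) → (∀ v, dg G v ≤ Δ) →
    ∀ (a b : Fin q) (h : (V → Fin q) → ℝ) (x : V → Fin q) (v : V) (t : ℝ), 0 ≤ t →
    (pt G q θ t h (Function.update x v a) - pt G q θ t h (Function.update x v b)) ^ 2 ≤
      Δ * Real.exp (-2 * θ * t) * ∑ w, sx G q θ a b t (fun p => if p.1 = v then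
        (h (Function.update (p.2 x) w a) - h (Function.update (p.2 x) w b)) ^ 2 else 0) (st w a)

/-- GRD: the gradient bound -/
def S_GRD : Prop := ∀ (V : Type) [Fintype V] [DecidableEq V] (G : SimpleGraph V) (q : ℕ) (θ : ℝ)
    (Δ : ℕ) (η S : ℝ) (ω : V → V → ℝ), HY G q θ Δ η S ω →
    ∀ (a b : Fin q) (x0 : V → Fin q) (h : (V → Fin q) → ℝ) (T t : ℝ), 0 ≤ t → 1 ≤ T - t →
    ∑ v, mean (law G q θ x0 (T - t)) (fun x =>
        (pt G q θ t h (Function.update x v a) - pt G q θ t h (Function.update x v b)) ^ 2) ≤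
      Δ * cN q θ Δ η S * Real.exp (-2 * θ * t) *
        ∑ w, mean (law G q θ x0 T) (fun x =>
          (h (Function.update x w a) - h (Function.update x w b)) ^ 2)

/-! ## the window -/

/-- the total square gradient of `f` under `μ` -/
noncomputable def tg {V : Type} [Fintype V] [DecidableEq V] {q : ℕ} (μ : (V → Fin q) → ℝ)
    (f : (V → Fin q) → ℝ) : ℝ := ∑ a, ∑ b, ∑ v, mean μ (fun x =>
      (f (Function.update x v a) - f (Function.update x v b)) ^ 2)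

/-- ENE: the energy and the total square gradient -/
def S_ENE : Prop := ∀ (V : Type) [Fintype V] [DecidableEq V] (G : SimpleGraph V) (q : ℕ) (θ : ℝ),
    1 ≤ q → 0 < θ → θ ≤ 1 → (∀ v, 1 ≤ dg G v) → ∀ (μ f : (V → Fin q) → ℝ), (∀ x, 0 ≤ μ x) →
    mean μ (gam (mrate G q θ) (act (V := V) (q := q)) f) ≤ tg μ f ∧
    θ / (4 * q ^ 2) * tg μ f ≤ mean μ (gam (mrate G q θ) (act (V := V) (q := q)) f)

/-- WO1: the energy controls the variance gained since time one -/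
def S_WO1 : Prop := ∀ (V : Type) [Fintype V] [DecidableEq V] (G : SimpleGraph V) (q : ℕ) (θ : ℝ)
    (Δ : ℕ) (η S : ℝ) (ω : V → V → ℝ), HY G q θ Δ η S ω →
    ∀ (x0 : V → Fin q) (g : (V → Fin q) → ℝ) (T u : ℝ), 1 ≤ u → u ≤ T →
    pt G q θ u (fun x => (pt G q θ (T - u) g x) ^ 2) x0 -
      pt G q θ 1 (fun x => (pt G q θ (T - 1) g x) ^ 2) x0 ≤
      cV q θ Δ η S * pt G q θ u
        (gam (mrate G q θ) (act (V := V) (q := q)) (pt G q θ (T - u) g)) x0

/-- WOD: decay of the variance -/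
def S_WOD : Prop := ∀ (V : Type) [Fintype V] [DecidableEq V] (G : SimpleGraph V) (q : ℕ) (θ : ℝ)
    (Δ : ℕ) (η S : ℝ) (ω : V → V → ℝ), HY G q θ Δ η S ω →
    ∀ (x0 : V → Fin q) (g : (V → Fin q) → ℝ) (s r M : ℝ), 1 ≤ s → 0 ≤ r → 0 ≤ M →
    (∀ x, 0 ≤ g x ∧ g x ≤ 1) →
    pt G q θ s (fun x => (pt G q θ r g x) ^ 2) x0 - (pt G q θ s (pt G q θ r g) x0) ^ 2 ≤
      Real.exp (-r / cV q θ Δ η S) + (Δ * Real.exp (-θ * (s + r - 1)) * M +
        Fintype.card V * Real.exp (θ / 2 - θ * M / (2 * Δ)))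

/-- WIN2: the window inequality -/
def S_WIN2 : Prop := ∀ (V : Type) [Fintype V] [DecidableEq V] (G : SimpleGraph V) (q : ℕ) (θ : ℝ)
    (Δ : ℕ) (η S : ℝ) (ω : V → V → ℝ), HY G q θ Δ η S ω →
    ∀ (x0 : V → Fin q) (μ : (V → Fin q) → ℝ) (s r u M : ℝ), IsStat G q θ μ →
    1 ≤ s → 0 ≤ r → 1 ≤ u → 0 ≤ M →
    (tv (law G q θ x0 (s + r)) μ) ^ 2 * (1 - tv (law G q θ x0 s) μ) ≤
      2 * (2 * Real.exp (-r / cV q θ Δ η S) +
        Δ * M * (Real.exp (-θ * (s + r - 1)) + Real.exp (-θ * (u + r - 1))) +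
        2 * Fintype.card V * Real.exp (θ / 2 - θ * M / (2 * Δ)) +
        3 * (Fintype.card V * Δ * Real.exp (-θ * u)))

/-- FIN3: the window, uniformly -/
def S_FIN3 : Prop := ∀ (q : ℕ) (θ : ℝ) (Δ : ℕ) (η S : ℝ) (ε : ℝ), 2 ≤ q → 0 < θ → θ < 1 →
    0 < ε → ε < 1 →
    ∃ C : ℝ, ∀ (V : Type) [Fintype V] [DecidableEq V] (G : SimpleGraph V) (ω : V → V → ℝ)
      (x0 : V → Fin q) (μ : (V → Fin q) → ℝ), HY G q θ Δ η S ω → 3 ≤ Fintype.card V →
      IsStat G q θ μ →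
      tmix G q θ x0 μ ε - tmix G q θ x0 μ (1 - ε) ≤ C

/-- SUB: weights on graphs with subexponential growth of balls -/
def S_SUB : Prop := ∀ (c0 α η : ℝ), 0 < c0 → 0 < α → α < 1 → 0 < η →
    ∃ (S : ℝ) (Δ : ℕ), 1 ≤ S ∧ 1 ≤ Δ ∧ ∀ (V : Type) [Fintype V] (G : SimpleGraph V), G.Connected →
      (∀ (v : V) (r : ℕ), 1 ≤ r → (({w : V | G.dist v w ≤ r} : Set V).ncard : ℝ) ≤
        c0 * Real.exp ((r : ℝ) ^ (1 - α))) →
      WT G η S (fun j y => (1 + η) ^ (G.dist j y)) ∧ ∀ v, dg G v ≤ Δ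

end Pool.Agent.W788.NW
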