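import Pool.Agent.W788.NW.Stm
import Pool.Agent.W788.NV.Asm

/-! # The window on graphs of subexponential growth -/

namespace Pool.Agent.W788.NW

open Finset Filter Topology Pool.Agent.W788.NV

/-- two-sided bound of the window, uniformly over all graphs of subexponential growth -/
theorem window (h1 : S_SUB) (h2 : S_FIN3) (q : ℕ) (θ c0 α ε : ℝ) (hq : 2 ≤ q) (hθ0 : 0 < θ)
    (hθ1 : θ < 1) (hc : 0 < c0) (ha0 : 0 < α) (ha1 : α < 1) (hε0 : 0 < ε) (hε1 : ε < 1) :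
    ∃ C : ℝ, ∀ (V : Type) [Fintype V] [DecidableEq V] (G : SimpleGraph V) (x0 : V → Fin q)
      (μ : (V → Fin q) → ℝ), G.Connected →
      (∀ (v : V) (r : ℕ), 1 ≤ r → (({w : V | G.dist v w ≤ r} : Set V).ncard : ℝ) ≤
        c0 * Real.exp ((r : ℝ) ^ (1 - α))) → 3 ≤ Fintype.card V → IsStat G q θ μ →
      |tmix G q θ x0 μ ε - tmix G q θ x0 μ (1 - ε)| ≤ C := by
  have hq' : (2 : ℝ) ≤ (q : ℝ) := by exact_mod_cast hq
  have hη : 0 < θ / (2 * q) := by positivity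
  obtain ⟨S, Δ, hS, hΔ, hw⟩ := h1 c0 α (θ / (2 * q)) hc ha0 ha1 hη
  obtain ⟨C1, hC1⟩ := h2 q θ Δ (θ / (2 * q)) S ε hq hθ0 hθ1 hε0 hε1
  obtain ⟨C2, hC2⟩ := h2 q θ Δ (θ / (2 * q)) S (1 - ε) hq hθ0 hθ1 (by linarith) (by linarith)
  refine ⟨max C1 C2, ?_⟩
  intro V _ _ G x0 μ hG hball h3 hμ
  obtain ⟨hwt, hdD⟩ := hw V G hG hball
  have hHY : HY G q θ Δ (θ / (2 * q)) S (fun j y => (1 + θ / (2 * q)) ^ (G.dist j y)) :=
    { q2 := hq
      t0 := hθ0
      t1 := hθ1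
      d1 := dg_pos G hG (by omega)
      dD := hdD
      wt := hwt
      et := by
        have : 2 * (θ / (2 * (q : ℝ))) * (1 - θ) * q = θ * (1 - θ) := by
          field_simp
        rw [this]
        nlinarith
      D1 := hΔ
      S1 := hS }
  have e1 := hC1 V G _ x0 μ hHY h3 hμ
  have e2 := hC2 V G _ x0 μ hHY h3 hμ
  have hsub : (1 : ℝ) - (1 - ε) = ε := by ring
  rw [hsub] at e2
  rw [abs_le]
  have a1 := le_max_left C1 C2
  have a2 := le_max_right C1 C2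
  constructor <;> linarith

end Pool.Agent.W788.NW
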